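import Pool.Agent.H41.LU.Stmts

/-!
Project LU, part B2, assembly (helper88): `B2Stmt` from the modules.
-/

set_option autoImplicit false

open scoped BigOperators
open Finset

noncomputable section

namespace Pool.LU

/-- B2: the final statement from the modules -/
theorem b2_asm (hSTR : STRStmt) (hACT : ACTStmt) (hREA : REAStmt) (hIND : INDStmt)
    (hCOR : CORStmt) : B2Stmt := by
  classical
  intro n E _ _ _ V _ iV adj w hn hsym hna hspan hstar
  obtain ⟨u₀, v₀, hne₀, hnadj₀⟩ := hna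
  -- the forms on the dual space
  let w' : V → Module.Dual ℝ E →ₗ[ℝ] ℝ := fun v => Module.Dual.eval ℝ E (w v)
  have hw' : ∀ v (x : Module.Dual ℝ E), w' v x = x (w v) := fun v x => rfl
  have hstar' : StarC adj w' := by
    intro z hz hcl
    refine hstar z ?_ hcl
    have h1 : Module.Dual.eval ℝ E (∑ v, z v • w v) = 0 := by
      rw [map_sum]
      simpa only [map_smul] using hz
    exact (Module.eval_apply_eq_zero_iff ℝ _).1 h1
  have hncl : ¬ IsCl adj (univ : Finset V) := by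
    intro h
    exact hnadj₀ (h u₀ (mem_univ _) v₀ (mem_univ _) hne₀)
  have hEuniv : IsE adj w' (univ : Finset V) :=
    ⟨⟨0, fun v _ => by simp, fun v hv => absurd (mem_univ v) hv⟩, hncl⟩
  obtain ⟨δ₁, hδ₁, hA⟩ := hACT (Module.Dual ℝ E) V adj w' hstar'
  obtain ⟨δ₂, hδ₂, hR⟩ := hREA (Module.Dual ℝ E) V adj w' hstar' ⟨u₀, v₀, hne₀, hnadj₀⟩
  set δ : ℝ := min δ₁ δ₂ / 2 with hδ
  have hmin : 0 < min δ₁ δ₂ := lt_min hδ₁ hδ₂
  have hδ0 : 0 < δ := by rw [hδ]; linarith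
  have hδ1' : δ < δ₁ := by
    rw [hδ]; have := min_le_left δ₁ δ₂; linarith
  have hδ2' : δ < δ₂ := by
    rw [hδ]; have := min_le_right δ₁ δ₂; linarith
  have hA := hA δ hδ0 hδ1'
  have hR := hR δ hδ0 hδ2'
  have hI := hIND (Module.Dual ℝ E) V adj w' hstar'
  have hepu : ep δ (univ : Finset V) = 1 := by simp [ep]
  -- the index set of the new facets
  let N : Type := {φ : Finset V // IsE adj w' φ ∧ φ ≠ univ}
  let f : V ⊕ N → Module.Dual ℝ E →ₗ[ℝ] ℝ := Sum.elim w' (fun φ => bb w' φ.1)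
  let ε : V ⊕ N → ℝ := Sum.elim (fun _ => 0) (fun φ => ep δ φ.1)
  have hbb : ∀ (φ : Finset V) (x : Module.Dual ℝ E), bb w' φ x = ∑ v ∈ φ, w' v x := by
    intro φ x; simp [bb]
  have hh : bb w' (univ : Finset V) ≠ 0 := by
    intro h
    obtain ⟨⟨x, _, hx⟩, _⟩ := hSTR (Module.Dual ℝ E) V adj w' hstar' ∅
      (fun u hu => absurd hu (notMem_empty u))
    have h2 : bb w' (univ : Finset V) x = 0 := by rw [h]; rfl
    rw [hbb] at h2
    have h3 : 0 < ∑ v ∈ (univ : Finset V), w' v x :=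
      sum_pos (fun v _ => hx v (notMem_empty v)) ⟨u₀, mem_univ _⟩
    linarith
  have hker : ∀ x : Module.Dual ℝ E, (∀ j, f j x = 0) → x = 0 := by
    intro x hx
    have h1 : ∀ v, x (w v) = 0 := fun v => hx (Sum.inl v)
    apply LinearMap.ext_on_range hspan
    intro v
    rw [h1 v]; rfl
  have hle : ∀ x : Module.Dual ℝ E, (∀ v, 0 ≤ w' v x) → ∀ φ : Finset V,
      bb w' φ x ≤ bb w' univ x := by
    intro x hx φ
    rw [hbb, hbb]
    exact sum_le_sum_of_subset_of_nonneg (subset_univ _) (fun v _ _ => hx v)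
  have hbound : ∃ B : ℝ, ∀ x, bb w' (univ : Finset V) x = 1 → (∀ j, ε j ≤ f j x) →
      ∀ j, f j x ≤ B := by
    refine ⟨1, fun x hx hj j => ?_⟩
    have h0 : ∀ v, 0 ≤ w' v x := fun v => hj (Sum.inl v)
    rcases j with v | φ
    · have h1 : w' v x ≤ ∑ v ∈ (univ : Finset V), w' v x :=
        single_le_sum (f := fun v => w' v x) (fun v _ => h0 v) (mem_univ v)
      rw [← hbb, hx] at h1
      exact h1
    · have := hle x h0 φ.1
      rw [hx] at this
      exact this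
  have hfr : Module.finrank ℝ (Module.Dual ℝ E) = n + 1 := by
    rw [Subspace.dual_finrank_eq, hn]
  obtain ⟨P, g, hcomp, hl, hg1, hgs, hS⟩ :=
    hCOR n (Module.Dual ℝ E) (V ⊕ N) f ε (bb w' univ) hfr hh hker hbound
  -- points of the chamber
  have hcham : ∀ y, y ∈ P.cham ↔ IsP adj w' δ (g y) := by
    intro y
    constructor
    · intro hy
      have h0 : ∀ j, ε j ≤ f j (g y) := fun j => by
        have := hy j
        rw [hl] at this
        linarith
      refine ⟨fun v => h0 (Sum.inl v), hg1 y, fun φ hφ => ?_⟩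
      by_cases hu : φ = univ
      · rw [hu, hepu, hg1 y]
      · exact h0 (Sum.inr ⟨φ, hφ, hu⟩)
    · rintro ⟨h1, h2, h3⟩ j
      rw [hl]
      rcases j with v | φ
      · have := h1 v
        show 0 ≤ w' v (g y) - 0
        linarith
      · have := h3 φ.1 φ.2.1
        show 0 ≤ bb w' φ.1 (g y) - ep δ φ.1
        linarith
  have hsigl : ∀ y v, (Sum.inl v : V ⊕ N) ∈ P.sig y ↔ w' v (g y) = 0 := by
    intro y v
    show P.l (Sum.inl v) y = 0 ↔ _
    rw [hl]
    show w' v (g y) - 0 = 0 ↔ _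
    rw [sub_zero]
  have hsigr : ∀ y (φ : N), (Sum.inr φ : V ⊕ N) ∈ P.sig y ↔ bb w' φ.1 (g y) = ep δ φ.1 := by
    intro y φ
    show P.l (Sum.inr φ) y = 0 ↔ _
    rw [hl]
    show bb w' φ.1 (g y) - ep δ φ.1 = 0 ↔ _
    rw [sub_eq_zero]
  refine ⟨N, inferInstance, Classical.decEq _, P, ⟨hcomp, ?_, ?_⟩, ?_⟩
  · -- simple
    intro y hy
    have hP := (hcham y).1 hy
    obtain ⟨hA1, hA2, hA3⟩ := hA (g y) hP
    apply hS
    let σ : Finset V := univ.filter (fun v => w' v (g y) = 0)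
    let c : Finset (Finset V) :=
      univ.filter (fun φ => IsE adj w' φ ∧ bb w' φ (g y) = ep δ φ)
    have hσ : ∀ v, v ∈ σ ↔ w' v (g y) = 0 := fun v => by simp [σ]
    have hc : ∀ φ, φ ∈ c ↔ IsE adj w' φ ∧ bb w' φ (g y) = ep δ φ := fun φ => by simp [c]
    have hLI := hI σ c (fun u hu v hv huv => hA1 u v ((hσ u).1 hu) ((hσ v).1 hv) huv)
      (fun φ hφ => ⟨((hc φ).1 hφ).1, fun v hv =>
        hA2 v φ ((hc φ).1 hφ).1 ((hσ v).1 hv) ((hc φ).1 hφ).2⟩)
      (fun φ hφ ψ hψ => hA3 φ ψ ((hc φ).1 hφ).1 ((hc ψ).1 hψ).1 ((hc φ).1 hφ).2 ((hc ψ).1 hψ).2)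
    have huc : (univ : Finset V) ∈ c := (hc _).2 ⟨hEuniv, by rw [hg1 y, hepu]⟩
    let ι : Option (P.sig y) → σ ⊕ c := fun o => match o with
      | none => Sum.inr ⟨univ, huc⟩
      | some ⟨Sum.inl v, hv⟩ => Sum.inl ⟨v, (hσ v).2 ((hsigl y v).1 hv)⟩
      | some ⟨Sum.inr φ, hφ⟩ => Sum.inr ⟨φ.1, (hc _).2 ⟨φ.2.1, (hsigr y φ).1 hφ⟩⟩
    have hι : Function.Injective ι := by
      intro o o' ho
      rcases o with _ | ⟨v | φ, h⟩ <;> rcases o' with _ | ⟨v' | φ', h'⟩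
      · rfl
      · simp [ι] at ho
      · simp [ι] at ho
        exact absurd ho.symm φ'.2.2
      · simp [ι] at ho
      · simp [ι] at ho
        subst ho; rfl
      · simp [ι] at ho
      · simp [ι] at ho
        exact absurd ho φ.2.2
      · simp [ι] at ho
      · simp [ι] at ho
        have : φ = φ' := Subtype.ext ho
        subst this; rfl
    have hcomp' := hLI.comp ι hι
    convert hcomp' using 1
    funext o
    rcases o with _ | ⟨v | φ, h⟩ <;> rfl
  · -- flag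
    intro τ hτ
    let σ : Finset V := univ.filter (fun v => (Sum.inl v : V ⊕ N) ∈ τ)
    let c : Finset (Finset V) :=
      univ.filter (fun φ => ∃ h : IsE adj w' φ ∧ φ ≠ univ, (Sum.inr ⟨φ, h⟩ : V ⊕ N) ∈ τ)
    have hσ : ∀ v, v ∈ σ ↔ (Sum.inl v : V ⊕ N) ∈ τ := fun v => by simp [σ]
    have hc : ∀ φ, φ ∈ c ↔ ∃ h : IsE adj w' φ ∧ φ ≠ univ, (Sum.inr ⟨φ, h⟩ : V ⊕ N) ∈ τ :=
      fun φ => by simp only [c, mem_filter, mem_univ, true_and]
    have hcl : IsCl adj σ := by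
      intro u hu v hv huv
      obtain ⟨_, y, hy, hsub⟩ := hτ _ ((hσ u).1 hu) _ ((hσ v).1 hv)
        (fun h => huv (Sum.inl_injective h))
      obtain ⟨hA1, _, _⟩ := hA (g y) ((hcham y).1 hy)
      exact hA1 u v ((hsigl y u).1 (hsub (by simp))) ((hsigl y v).1 (hsub (by simp))) huv
    have hsub1 : ∀ φ ∈ c, IsE adj w' φ ∧ σ ⊆ φ := by
      intro φ hφ
      obtain ⟨h, hφτ⟩ := (hc φ).1 hφ
      refine ⟨h.1, fun v hv => ?_⟩
      obtain ⟨_, y, hy, hsub⟩ := hτ _ ((hσ v).1 hv) _ hφτ (by simp)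
      obtain ⟨_, hA2, _⟩ := hA (g y) ((hcham y).1 hy)
      exact hA2 v φ h.1 ((hsigl y v).1 (hsub (by simp))) ((hsigr y ⟨φ, h⟩).1 (hsub (by simp)))
    have hch : ∀ φ ∈ c, ∀ ψ ∈ c, φ ⊆ ψ ∨ ψ ⊆ φ := by
      intro φ hφ ψ hψ
      by_cases he : φ = ψ
      · left; rw [he]
      obtain ⟨h, hφτ⟩ := (hc φ).1 hφ
      obtain ⟨h', hψτ⟩ := (hc ψ).1 hψ
      obtain ⟨_, y, hy, hsub⟩ := hτ _ hφτ _ hψτ (by
        intro h2
        exact he (congrArg Subtype.val (Sum.inr_injective h2)))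
      obtain ⟨_, _, hA3⟩ := hA (g y) ((hcham y).1 hy)
      exact hA3 φ ψ h.1 h'.1 ((hsigr y ⟨φ, h⟩).1 (hsub (by simp)))
        ((hsigr y ⟨ψ, h'⟩).1 (hsub (by simp)))
    obtain ⟨x, hx, hxσ, hxc⟩ := hR σ c hcl hsub1 hch
    obtain ⟨y, rfl⟩ := hgs x hx.2.1
    refine ⟨y, (hcham y).2 hx, ?_⟩
    rintro (v | φ) hj
    · exact (hsigl y v).2 (hxσ v ((hσ v).2 hj))
    · exact (hsigr y φ).2 (hxc φ.1 ((hc φ.1).2 ⟨φ.2, hj⟩))
  · -- the adjacencies
    intro u v huv
    constructor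
    · rintro ⟨_, y, hy, hsub⟩
      obtain ⟨hA1, _, _⟩ := hA (g y) ((hcham y).1 hy)
      exact hA1 u v ((hsigl y u).1 (hsub (by simp))) ((hsigl y v).1 (hsub (by simp))) huv
    · intro hadj
      refine ⟨fun h => huv (Sum.inl_injective h), ?_⟩
      have hcl : IsCl adj ({u, v} : Finset V) := by
        intro a ha b hb hab
        simp only [mem_insert, mem_singleton] at ha hb
        rcases ha with rfl | rfl <;> rcases hb with rfl | rfl
        · exact absurd rfl hab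
        · exact hadj
        · exact hsym _ _ hadj
        · exact absurd rfl hab
      obtain ⟨x, hx, hxσ, _⟩ := hR {u, v} ∅ hcl (fun φ hφ => absurd hφ (notMem_empty φ))
        (fun φ hφ => absurd hφ (notMem_empty φ))
      obtain ⟨y, rfl⟩ := hgs x hx.2.1
      refine ⟨y, (hcham y).2 hx, ?_⟩
      intro j hj
      rcases hj with rfl | rfl
      · exact (hsigl y u).2 (hxσ u (by simp))
      · exact (hsigl y v).2 (hxσ v (by simp))

end Pool.LU
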