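import Pool.Agent.H41.LU.SphDefs
import Pool.Agent.H77.LU.POL

/-! Project LU, part C, module SPH_GEO: Morse data of a generic functional on a simple polytope. -/

set_option autoImplicit false
set_option linter.unusedSectionVars false

open scoped BigOperators Topology
open Finset

noncomputable section

namespace Pool.LU

namespace Geo

variable {n : ℕ} {V : Type} [Fintype V] [DecidableEq V] (P : SPoly n V)

/-- a facet of the nerve, that is a vertex of the polytope -/
def Fac (m : Finset V) : Prop := P.Face (m : Set V) ∧ m.card = n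

/-- the vertex of the polytope -/
def pt (m : Finset V) : Fin n → ℝ :=
  open Classical in if h : P.Face (m : Set V) then h.choose else 0

variable {P}

theorem pt_mem {m : Finset V} (h : P.Face (m : Set V)) : pt P m ∈ P.cham := by
  rw [pt, dif_pos h]; exact h.choose_spec.1

theorem pt_sub {m : Finset V} (h : P.Face (m : Set V)) : (m : Set V) ⊆ P.sig (pt P m) := by
  rw [pt, dif_pos h]; exact h.choose_spec.2

theorem ncard_sig_le (hP : P.Good) {x : Fin n → ℝ} (hx : x ∈ P.cham) : (P.sig x).ncard ≤ n := by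
  classical
  have h1 := (hP.simple x hx).fintype_card_le_finrank
  have h2 : Module.finrank ℝ ((Fin n → ℝ) →ₗ[ℝ] ℝ) = n := by
    rw [Module.finrank_linearMap]; simp
  rw [h2] at h1
  rwa [← Nat.card_coe_set_eq, Nat.card_eq_fintype_card]

theorem eq_sig (hP : P.Good) {m : Finset V} (hm : m.card = n) {x : Fin n → ℝ} (hx : x ∈ P.cham)
    (h : (m : Set V) ⊆ P.sig x) : (m : Set V) = P.sig x := by
  apply Set.eq_of_subset_of_ncard_le h
  rw [Set.ncard_coe_finset, hm]
  exact ncard_sig_le hP hx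

theorem pt_sig (hP : P.Good) {m : Finset V} (hm : Fac P m) : (m : Set V) = P.sig (pt P m) :=
  eq_sig hP hm.2 (pt_mem hm.1) (pt_sub hm.1)

theorem indep (hP : P.Good) {m : Finset V} (hm : P.Face (m : Set V)) :
    LinearIndependent ℝ (fun v : m => P.a v) := by
  have h1 := hP.simple _ (pt_mem hm)
  have h2 := pt_sub hm
  exact h1.comp (fun v : m => (⟨v, h2 v.2⟩ : P.sig (pt P m)))
    (fun u v h => Subtype.ext (congrArg (fun w : P.sig (pt P m) => (w : V)) h))

theorem ex_dual (hP : P.Good) (m : Finset V) (v : V) : ∃ e : Fin n → ℝ, P.Face (m : Set V) →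
    ∀ u ∈ m, P.a u e = if u = v then 1 else 0 := by
  by_cases hm : P.Face (m : Set V)
  · obtain ⟨d, hd⟩ := pol_prescribe (fun v : m => P.a v) (indep hP hm)
      (fun u => if (u : V) = v then 1 else 0)
    exact ⟨d, fun _ u hu => hd ⟨u, hu⟩⟩
  · exact ⟨0, fun h => absurd h hm⟩

/-- a small step -/
theorem step {x d : Fin n → ℝ} (hx : x ∈ P.cham) (hd : ∀ u ∈ P.sig x, 0 ≤ P.a u d) :
    ∃ ε : ℝ, 0 < ε ∧ x + ε • d ∈ P.cham := by
  have hev : ∀ᶠ ε in 𝓝[>] (0 : ℝ), ∀ v : V, v ∉ P.sig x → 0 < P.l v x + ε * P.a v d := by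
    rw [Filter.eventually_all]
    intro v
    by_cases hv : v ∈ P.sig x
    · exact Filter.Eventually.of_forall (fun ε h => absurd hv h)
    · have hpos : 0 < P.l v x := lt_of_le_of_ne (hx v) (fun h => hv h.symm)
      have hc : Filter.Tendsto (fun ε : ℝ => P.l v x + ε * P.a v d) (𝓝[>] 0)
          (𝓝 (P.l v x + 0 * P.a v d)) := by
        refine Filter.Tendsto.mono_left ?_ nhdsWithin_le_nhds
        exact (Continuous.tendsto (by fun_prop) 0)
      rw [zero_mul, add_zero] at hc
      filter_upwards [hc.eventually (lt_mem_nhds hpos)] with ε hε _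
      exact hε
  obtain ⟨ε, hε1, hε2⟩ := (hev.and self_mem_nhdsWithin).exists
  have hε0 : 0 < ε := hε2
  refine ⟨ε, hε0, fun v => ?_⟩
  rw [pol_l_add]
  by_cases hv : v ∈ P.sig x
  · have h1 : P.l v x = 0 := hv
    rw [h1, zero_add]
    exact mul_nonneg hε0.le (hd v hv)
  · exact (hε1 v hv).le

variable (P) in
/-- the dual basis at `m` -/
def IsE (e : Finset V → V → Fin n → ℝ) : Prop := ∀ m : Finset V, P.Face (m : Set V) →
  ∀ v, ∀ u ∈ m, P.a u (e m v) = if u = v then 1 else 0

theorem ex_min (hP : P.Good) {e : Finset V → V → Fin n → ℝ} (he : IsE P e)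
    (f : (Fin n → ℝ) →ₗ[ℝ] ℝ) (hf : ∀ m, Fac P m → ∀ v ∈ m, f (e m v) ≠ 0) (t : Finset V)
    (ht : P.Face (t : Set V)) :
    ∃ m, Fac P m ∧ t ⊆ m ∧ ∀ v ∈ m, f (e m v) < 0 → v ∈ t := by
  have hcl : IsClosed {x : Fin n → ℝ | (t : Set V) ⊆ P.sig x} := by
    have : {x : Fin n → ℝ | (t : Set V) ⊆ P.sig x} = ⋂ v ∈ t, {x | P.l v x = 0} := by
      ext x
      simp only [Set.mem_ofPred_eq, Set.mem_iInter]
      exact Iff.rfl
    rw [this]
    refine isClosed_iInter (fun v => isClosed_iInter (fun _ => ?_))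
    exact isClosed_eq (pol_l_cont P v) continuous_const
  have hcomp : IsCompact (P.cham ∩ {x : Fin n → ℝ | (t : Set V) ⊆ P.sig x}) :=
    hP.compact.inter_right hcl
  have hne : (P.cham ∩ {x : Fin n → ℝ | (t : Set V) ⊆ P.sig x}).Nonempty := by
    obtain ⟨x, hx, h⟩ := ht
    exact ⟨x, hx, h⟩
  obtain ⟨x, ⟨hx, hxt⟩, hmin⟩ := hcomp.exists_isMinOn hne
    (LinearMap.continuous_of_finiteDimensional f).continuousOn
  have hmin' : ∀ y ∈ P.cham, (t : Set V) ⊆ P.sig y → f x ≤ f y := fun y hy hyt =>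
    hmin ⟨hy, hyt⟩
  -- no decreasing direction
  have key : ∀ d : Fin n → ℝ, (∀ u ∈ P.sig x, 0 ≤ P.a u d) → (∀ u ∈ t, P.a u d = 0) →
      0 ≤ f d := by
    intro d h1 h2
    obtain ⟨ε, hε, hmem⟩ := step hx h1
    have h3 := hmin' _ hmem (by
      intro u hu
      show P.l u _ = 0
      rw [pol_l_add, h2 u hu, mul_zero, add_zero]
      exact hxt hu)
    rw [map_add, map_smul, smul_eq_mul] at h3
    have h4 : 0 ≤ ε * f d := by linarith
    exact nonneg_of_mul_nonneg_right h4 hε
  obtain ⟨y, hy, hxy, ⟨e'⟩⟩ := pur pol n V P hP x hx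
  classical
  set m : Finset V := (P.sig y).toFinset with hm
  have hmy : (m : Set V) = P.sig y := by simp [hm]
  have hmf : Fac P m := by
    refine ⟨⟨y, hy, by rw [hmy]⟩, ?_⟩
    rw [hm, Set.toFinset_card]
    simpa using (Fintype.card_congr e').symm
  have hxm : P.sig x ⊆ (m : Set V) := by rw [hmy]; exact hxy
  have hmx : (m : Set V) ⊆ P.sig x := by
    intro v hv
    by_contra hvx
    have hvm : v ∈ m := hv
    have h0 : ∀ u ∈ P.sig x, P.a u (e m v) = 0 := by
      intro u hu
      have hum : u ∈ m := hxm hu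
      rw [he m hmf.1 v u hum, if_neg]
      rintro rfl
      exact hvx hu
    have h1 := key (e m v) (fun u hu => (h0 u hu).ge) (fun u hu => h0 u (hxt hu))
    have h2 := key (-(e m v)) (fun u hu => by rw [map_neg, h0 u hu, neg_zero])
      (fun u hu => by rw [map_neg, h0 u (hxt hu), neg_zero])
    rw [map_neg] at h2
    exact hf m hmf v hvm (le_antisymm (by linarith) h1)
  have htm : t ⊆ m := fun u hu => hxm (hxt hu)
  refine ⟨m, hmf, htm, fun v hv hneg => ?_⟩
  by_contra hvt
  have h1 := key (e m v) (fun u hu => by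
      rw [he m hmf.1 v u (hxm hu)]; split_ifs <;> norm_num)
    (fun u hu => by
      rw [he m hmf.1 v u (htm hu), if_neg]
      rintro rfl
      exact hvt hu)
  linarith

theorem formula (hP : P.Good) {e : Finset V → V → Fin n → ℝ} (he : IsE P e) {m : Finset V}
    (hm : Fac P m) (f : (Fin n → ℝ) →ₗ[ℝ] ℝ) (x : Fin n → ℝ) :
    f x = f (pt P m) + ∑ v ∈ m, P.l v x * f (e m v) := by
  have hx : x = pt P m + ∑ v ∈ m, P.l v x • e m v := by
    set y := x - (pt P m + ∑ v ∈ m, P.l v x • e m v) with hy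
    have h0 : ∀ u : m, P.a u y = 0 := by
      intro u
      have h1 : P.l u x = P.a u x + P.b u := rfl
      have h2 : P.a u (pt P m) + P.b u = 0 := pt_sub hm.1 u.2
      have h3 : P.a u (∑ v ∈ m, P.l v x • e m v) = P.l u x := by
        rw [map_sum, Finset.sum_eq_single (u : V)]
        · rw [map_smul, he m hm.1 u u u.2, if_pos rfl, smul_eq_mul, mul_one]
        · intro v _ hvu
          rw [map_smul, he m hm.1 v u u.2, if_neg (Ne.symm hvu), smul_zero]
        · intro h; exact absurd u.2 h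
      rw [hy, map_sub, map_add, h3]
      linarith
    have hli := indep hP hm.1
    set A : (Fin n → ℝ) →ₗ[ℝ] (m → ℝ) := LinearMap.pi (fun i : m => P.a i) with hA
    have hsurj : Function.Surjective A := by
      intro c
      obtain ⟨d, hd⟩ := pol_prescribe (fun i : m => P.a i) hli c
      exact ⟨d, funext hd⟩
    have hfr : Module.finrank ℝ (Fin n → ℝ) = Module.finrank ℝ (m → ℝ) := by
      simp [hm.2]
    have hinj : Function.Injective A :=
      (LinearMap.injective_iff_surjective_of_finrank_eq_finrank hfr).2 hsurj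
    have hy0 : y = 0 := by
      apply hinj
      rw [map_zero]
      funext u
      exact h0 u
    rw [hy] at hy0
    exact sub_eq_zero.1 hy0
  conv_lhs => rw [hx]
  rw [map_add, map_sum]
  congr 1
  exact Finset.sum_congr rfl (fun v _ => by rw [map_smul, smul_eq_mul])

theorem lt_of (hP : P.Good) {e : Finset V → V → Fin n → ℝ} (he : IsE P e)
    (f : (Fin n → ℝ) →ₗ[ℝ] ℝ) {t m m' : Finset V} (hm : Fac P m) (hm' : Fac P m')
    (htm' : t ⊆ m') (hpos : ∀ v ∈ m, v ∉ t → 0 < f (e m v)) (hne : m' ≠ m) :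
    f (pt P m) < f (pt P m') := by
  rw [formula hP he hm f (pt P m')]
  have hs : (m' : Set V) = P.sig (pt P m') := pt_sig hP hm'
  have hnn : ∀ v ∈ m, 0 ≤ P.l v (pt P m') * f (e m v) := by
    intro v hv
    by_cases hvt : v ∈ t
    · have : P.l v (pt P m') = 0 := pt_sub hm'.1 (htm' hvt)
      rw [this, zero_mul]
    · exact mul_nonneg (pt_mem hm'.1 v) (hpos v hv hvt).le
  obtain ⟨v, hv, hvm'⟩ : ∃ v ∈ m, v ∉ m' := by
    by_contra hcon
    push Not at hcon
    exact hne (Finset.eq_of_subset_of_card_le hcon (by rw [hm.2, hm'.2])).symm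
  have hlt : 0 < ∑ v ∈ m, P.l v (pt P m') * f (e m v) := by
    apply Finset.sum_pos' hnn
    refine ⟨v, hv, mul_pos ?_ (hpos v hv (fun h => hvm' (htm' h)))⟩
    refine lt_of_le_of_ne (pt_mem hm'.1 v) (fun h => hvm' ?_)
    have : v ∈ P.sig (pt P m') := h.symm
    rw [← hs] at this
    exact this
  linarith

end Geo

open Geo in
theorem geo : GEOStmt := by
  classical
  intro n V _ _ P hP
  have hex : ∀ m : Finset V, ∀ v : V, ∃ e : Fin n → ℝ, P.Face (m : Set V) →
    ∀ u ∈ m, P.a u e = if u = v then 1 else 0 := fun m v => ex_dual hP m v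
  choose e he using hex
  have hE : IsE P e := fun m hm v u hu => he m v hm u hu
  obtain ⟨f, hf⟩ := Module.exists_dual_forall_apply_ne_zero (K := ℝ)
    (fun p : {p : Finset V × V // P.Face (p.1 : Set V) ∧ p.2 ∈ p.1} => e p.1.1 p.1.2) (by
      rintro ⟨⟨m, v⟩, hm, hv⟩ h0
      have h1 := he m v hm v hv
      simp only at h0
      rw [h0, map_zero, if_pos rfl] at h1
      exact zero_ne_one h1)
  have hf' : ∀ m, Fac P m → ∀ v ∈ m, f (e m v) ≠ 0 := fun m hm v hv => hf ⟨(m, v), hm.1, hv⟩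
  refine ⟨fun m => m.filter (fun v => f (e m v) < 0), fun m => f (pt P m), ?_, ?_, ?_, ?_, ?_,
    ?_, ?_⟩
  · rintro s t ⟨x, hx, h⟩ hst
    exact ⟨x, hx, fun u hu => h (hst hu)⟩
  · rintro t ⟨x, hx, h⟩
    have h1 := Set.ncard_le_ncard h (Set.toFinite _)
    rw [Set.ncard_coe_finset] at h1
    exact h1.trans (ncard_sig_le hP hx)
  · intro m _ _
    exact Finset.filter_subset _ _
  · intro t ht
    obtain ⟨m, hm, htm, h⟩ := ex_min hP hE f hf' t ht
    exact ⟨m, hm.1, hm.2, htm, fun v hv => h v (Finset.mem_filter.1 hv).1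
      (Finset.mem_filter.1 hv).2⟩
  · intro t m hm hmc htm hR m' hm' hmc' htm' hne
    refine lt_of hP hE f (t := t) ⟨hm, hmc⟩ ⟨hm', hmc'⟩ htm' (fun v hv hvt => ?_) hne
    refine lt_of_le_of_ne ?_ (Ne.symm (hf' m ⟨hm, hmc⟩ v hv))
    by_contra hcon
    exact hvt (hR (Finset.mem_filter.2 ⟨hv, not_le.1 hcon⟩))
  · intro t ht
    obtain ⟨m, hm, htm, h⟩ := ex_min hP hE (-f) (fun m hm v hv => by
      rw [LinearMap.neg_apply]; exact neg_ne_zero.2 (hf' m hm v hv)) t ht
    refine ⟨m, hm.1, hm.2, htm, fun v hv => ?_⟩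
    by_cases hvt : v ∈ t
    · exact Finset.mem_union_left _ hvt
    · refine Finset.mem_union_right _ (Finset.mem_filter.2 ⟨hv, ?_⟩)
      by_contra hcon
      have h1 : 0 < f (e m v) := lt_of_le_of_ne (not_lt.1 hcon) (Ne.symm (hf' m hm v hv))
      exact hvt (h v hv (by rw [LinearMap.neg_apply]; linarith))
  · intro t m hm hmc htm hR m' hm' hmc' htm' hne
    have := lt_of hP hE (-f) (t := t) ⟨hm, hmc⟩ ⟨hm', hmc'⟩ htm' (fun v hv hvt => ?_) hne
    · rw [LinearMap.neg_apply, LinearMap.neg_apply] at this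
      linarith
    · rw [LinearMap.neg_apply]
      rcases Finset.mem_union.1 (hR hv) with h | h
      · exact absurd h hvt
      · have := (Finset.mem_filter.1 h).2
        linarith

end Pool.LU
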